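import Pool.Agent.Y453.UF.Stm

/-!
# Project UF (helper453): sign change and reindexing (helper154)
-/

set_option autoImplicit false

namespace Pool.Agent.Y154.UF

open Pool.Agent.Y453.UF
open Finset

/-- the signs -/
def eps (k l : ℕ) : (Fin 2 × Fin k) ⊕ (Fin 8 × Fin l) → ℤ :=
  Sum.elim (fun p => if p.1 = 1 then -1 else 1) (fun _ => 1)

theorem eps_sq (k l : ℕ) (a : (Fin 2 × Fin k) ⊕ (Fin 8 × Fin l)) : eps k l a * eps k l a = 1 := by
  rcases a with ⟨i, j⟩ | ⟨i, j⟩
  · by_cases h : i = 1 <;> simp [eps, h]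
  · simp [eps]

theorem eps_gram (k l : ℕ) (s : ℤ) (a b : (Fin 2 × Fin k) ⊕ (Fin 8 × Fin l)) :
    eps k l a * gram k l (-s) a b * eps k l b = -gram k l s a b := by
  rcases a with ⟨i, j⟩ | ⟨i, j⟩ <;> rcases b with ⟨i', j'⟩ | ⟨i', j'⟩
  · by_cases hj : j = j'
    · subst hj
      fin_cases i <;> fin_cases i' <;> simp [gram, eps, Matrix.blockDiagonal_apply]
    · simp [gram, eps, Matrix.blockDiagonal_apply, hj]
  · simp [gram, eps]
  · simp [gram, eps]
  · simp only [gram, Matrix.fromBlocks_apply₂₂, Matrix.blockDiagonal_apply, eps, Sum.elim_inr,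
      one_mul, mul_one]
    by_cases hj : j = j'
    · rw [if_pos hj, if_pos hj, neg_smul, Matrix.neg_apply]
    · rw [if_neg hj, if_neg hj, neg_zero]

/-- the sign change -/
def sgn (k l : ℕ) : ((Fin 2 × Fin k) ⊕ (Fin 8 × Fin l) → ℤ) ≃+
    ((Fin 2 × Fin k) ⊕ (Fin 8 × Fin l) → ℤ) where
  toFun x a := eps k l a * x a
  invFun x a := eps k l a * x a
  left_inv x := by
    funext a
    show eps k l a * (eps k l a * x a) = x a
    rw [← mul_assoc, eps_sq, one_mul]
  right_inv x := by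
    funext a
    show eps k l a * (eps k l a * x a) = x a
    rw [← mul_assoc, eps_sq, one_mul]
  map_add' x y := by
    funext a
    exact mul_add _ _ _

theorem sgn_gram (k l : ℕ) (s : ℤ) (x y : (Fin 2 × Fin k) ⊕ (Fin 8 × Fin l) → ℤ) :
    sgn k l x ⬝ᵥ (gram k l (-s)).mulVec (sgn k l y) = -(x ⬝ᵥ (gram k l s).mulVec y) := by
  show ∑ a, (eps k l a * x a) * ∑ b, gram k l (-s) a b * (eps k l b * y b) =
    -∑ a, x a * ∑ b, gram k l s a b * y b
  rw [← Finset.sum_neg_distrib]
  refine Finset.sum_congr rfl fun a _ => ?_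
  rw [Finset.mul_sum, Finset.mul_sum, ← Finset.sum_neg_distrib]
  refine Finset.sum_congr rfl fun b _ => ?_
  have h := eps_gram k l s a b
  calc eps k l a * x a * (gram k l (-s) a b * (eps k l b * y b))
      = x a * (eps k l a * gram k l (-s) a b * eps k l b) * y b := by ring
    _ = -(x a * (gram k l s a b * y b)) := by rw [h]; ring

theorem neg : S_NEG := by
  rintro I _ w k l s ⟨f, hf⟩
  refine ⟨f.trans (sgn k l), fun M N => ?_⟩
  have h1 : Phi (fun i j p q => - w i j p q) (M : I → I → ℤ) (N : I → I → ℤ) =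
      -Phi w (M : I → I → ℤ) (N : I → I → ℤ) := by
    unfold Phi
    simp only [neg_mul, Finset.sum_neg_distrib]
  rw [h1, hf]
  show -(4 * (f M ⬝ᵥ (gram k l s).mulVec (f N))) =
    4 * (sgn k l (f M) ⬝ᵥ (gram k l (-s)).mulVec (sgn k l (f N)))
  rw [sgn_gram]
  ring

/-- reindexing -/
def rei {I J : Type} (e : I ≃ J) : AltM J ≃+ AltM I where
  toFun M := ⟨fun i j => (M : J → J → ℤ) (e i) (e j), fun i j => M.2 (e i) (e j)⟩
  invFun M := ⟨fun i j => (M : I → I → ℤ) (e.symm i) (e.symm j),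
    fun i j => M.2 (e.symm i) (e.symm j)⟩
  left_inv M := by
    apply Subtype.ext
    funext i j
    show (M : J → J → ℤ) (e (e.symm i)) (e (e.symm j)) = (M : J → J → ℤ) i j
    rw [Equiv.apply_symm_apply, Equiv.apply_symm_apply]
  right_inv M := by
    apply Subtype.ext
    funext i j
    show (M : I → I → ℤ) (e.symm (e i)) (e.symm (e j)) = (M : I → I → ℤ) i j
    rw [Equiv.symm_apply_apply, Equiv.symm_apply_apply]
  map_add' M N := rfl

theorem reix : S_REIX := by
  rintro I J _ _ e w ι _ M0 ⟨f, hf⟩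
  refine ⟨(rei e).trans f, fun M N => ?_⟩
  have h1 : Phi (fun i j k l : J => w (e.symm i) (e.symm j) (e.symm k) (e.symm l))
      (M : J → J → ℤ) (N : J → J → ℤ) =
      Phi w ((rei e M : AltM I) : I → I → ℤ) ((rei e N : AltM I) : I → I → ℤ) := by
    unfold Phi
    rw [← Equiv.sum_comp e]
    refine Finset.sum_congr rfl fun i _ => ?_
    rw [← Equiv.sum_comp e]
    refine Finset.sum_congr rfl fun j _ => ?_
    rw [← Equiv.sum_comp e]
    refine Finset.sum_congr rfl fun k _ => ?_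
    rw [← Equiv.sum_comp e]
    refine Finset.sum_congr rfl fun l _ => ?_
    show w (e.symm (e i)) (e.symm (e j)) (e.symm (e k)) (e.symm (e l)) *
      (M : J → J → ℤ) (e i) (e j) * (N : J → J → ℤ) (e k) (e l) = _
    rw [Equiv.symm_apply_apply, Equiv.symm_apply_apply, Equiv.symm_apply_apply,
      Equiv.symm_apply_apply]
    rfl
  rw [h1, hf]
  rfl

end Pool.Agent.Y154.UF
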